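import Pool.Agent.U481.HW.Stm

set_option autoImplicit false

/-!
Project HW, package ITER: iteration of the stopping step gives the pointwise sparse bound.
-/

open MeasureTheory Filter Topology Set
open scoped ENNReal NNReal

namespace Pool.Agent.U195.HW.Iter

open Pool.Agent.U481.HW Pool.Dav

/-- The generations. -/
def gen (F : ℤ × ℤ → Set (ℤ × ℤ)) (q : ℤ × ℤ) : ℕ → Set (ℤ × ℤ)
  | 0 => {q}
  | k + 1 => ⋃ r ∈ gen F q k, F r

lemma mem_gen_succ (F : ℤ × ℤ → Set (ℤ × ℤ)) (q : ℤ × ℤ) (k : ℕ) (s : ℤ × ℤ) :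
    s ∈ gen F q (k + 1) ↔ ∃ r ∈ gen F q k, s ∈ F r := by
  simp [gen]

lemma meas_DD (r : ℤ × ℤ) : MeasurableSet (DD r) := measurableSet_Ico

lemma fin_DD (r : ℤ × ℤ) : volume (DD r) < ⊤ := by
  rw [DD, Real.volume_Ico]; exact ENNReal.ofReal_lt_top

section
variable {F : ℤ × ℤ → Set (ℤ × ℤ)} (q : ℤ × ℤ)
  (hsub : ∀ r, ∀ s ∈ F r, DD s ⊆ DD r)
  (hdis : ∀ r, (F r).PairwiseDisjoint DD)
  (hhalf : ∀ r, 2 * volume (⋃ s ∈ F r, DD s) ≤ volume (DD r))

include hsub in
lemma gen_sub : ∀ k, ∀ r ∈ gen F q k, DD r ⊆ DD q := by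
  intro k
  induction k with
  | zero => intro r hr; simp only [gen, mem_singleton_iff] at hr; rw [hr]
  | succ k ih =>
    intro s hs
    obtain ⟨r, hr, hsr⟩ := (mem_gen_succ F q k s).1 hs
    exact (hsub r s hsr).trans (ih r hr)

include hsub hdis in
lemma gen_disj : ∀ k, (gen F q k).PairwiseDisjoint DD := by
  intro k
  induction k with
  | zero => simp only [gen]; exact pairwiseDisjoint_singleton _ _
  | succ k ih =>
    intro s hs s' hs' hne
    obtain ⟨r, hr, hsr⟩ := (mem_gen_succ F q k s).1 hs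
    obtain ⟨r', hr', hsr'⟩ := (mem_gen_succ F q k s').1 hs'
    by_cases h : r = r'
    · subst h
      exact hdis r hsr hsr' hne
    · exact (ih hr hr' h).mono (hsub r s hsr) (hsub r' s' hsr')

include hsub hdis in
lemma gen_inter (k : ℕ) (r : ℤ × ℤ) (hr : r ∈ gen F q k) :
    DD r ∩ ⋃ s ∈ gen F q (k + 1), DD s ⊆ ⋃ s ∈ F r, DD s := by
  rintro x ⟨hx, hx'⟩
  simp only [mem_iUnion] at hx' ⊢
  obtain ⟨s, hs, hxs⟩ := hx'
  obtain ⟨r', hr', hsr'⟩ := (mem_gen_succ F q k s).1 hs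
  have : r = r' := by
    by_contra hne
    exact Set.disjoint_left.1 (gen_disj q hsub hdis k hr hr' hne) hx (hsub r' s hsr' hxs)
  subst this
  exact ⟨s, hsr', hxs⟩

include hsub in
lemma gen_anti (k : ℕ) :
    (⋃ s ∈ gen F q (k + 1), DD s) ⊆ ⋃ s ∈ gen F q k, DD s := by
  intro x hx
  simp only [mem_iUnion] at hx ⊢
  obtain ⟨s, hs, hxs⟩ := hx
  obtain ⟨r, hr, hsr⟩ := (mem_gen_succ F q k s).1 hs
  exact ⟨r, hr, hsub r s hsr hxs⟩

include hsub hdis hhalf in
lemma sparse_gen : Sparse q (gen F q) where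
  sub := gen_sub q hsub
  disj := gen_disj q hsub hdis
  half := by
    intro k r hr
    calc 2 * volume (DD r ∩ ⋃ s ∈ gen F q (k + 1), DD s)
        ≤ 2 * volume (⋃ s ∈ F r, DD s) := by
          gcongr
          exact gen_inter q hsub hdis k r hr
      _ ≤ volume (DD r) := hhalf r
  anti := gen_anti q hsub

include hsub hdis hhalf in
lemma gen_small : ∀ k : ℕ, 2 ^ k * volume (⋃ s ∈ gen F q k, DD s) ≤ volume (DD q) := by
  intro k
  induction k with
  | zero => simp [gen]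
  | succ k ih =>
    have h1 : (⋃ s ∈ gen F q (k + 1), DD s)
        ⊆ ⋃ r ∈ gen F q k, (DD r ∩ ⋃ s ∈ gen F q (k + 1), DD s) := by
      intro x hx
      have hx2 := gen_anti q hsub k hx
      simp only [mem_iUnion] at hx2
      obtain ⟨r, hr, hxr⟩ := hx2
      exact mem_biUnion hr ⟨hxr, hx⟩
    have h2 : volume (⋃ s ∈ gen F q (k + 1), DD s)
        ≤ ∑' r : gen F q k, volume (DD r.1 ∩ ⋃ s ∈ gen F q (k + 1), DD s) :=
      (measure_mono h1).trans (measure_biUnion_le volume (Set.to_countable _) _)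
    have h3 : 2 * volume (⋃ s ∈ gen F q (k + 1), DD s) ≤ volume (⋃ s ∈ gen F q k, DD s) := by
      calc 2 * volume (⋃ s ∈ gen F q (k + 1), DD s)
          ≤ 2 * ∑' r : gen F q k, volume (DD r.1 ∩ ⋃ s ∈ gen F q (k + 1), DD s) := by gcongr
        _ = ∑' r : gen F q k, 2 * volume (DD r.1 ∩ ⋃ s ∈ gen F q (k + 1), DD s) := by
            rw [ENNReal.tsum_mul_left]
        _ ≤ ∑' r : gen F q k, volume (DD r.1) := by
            apply ENNReal.tsum_le_tsum
            intro r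
            exact (sparse_gen q hsub hdis hhalf).half k r.1 r.2
        _ = volume (⋃ s ∈ gen F q k, DD s) := by
            rw [measure_biUnion (Set.to_countable _) (gen_disj q hsub hdis k)
              (fun r _ => meas_DD r)]
    calc 2 ^ (k + 1) * volume (⋃ s ∈ gen F q (k + 1), DD s)
        = 2 ^ k * (2 * volume (⋃ s ∈ gen F q (k + 1), DD s)) := by ring
      _ ≤ 2 ^ k * volume (⋃ s ∈ gen F q k, DD s) := by gcongr
      _ ≤ volume (DD q) := ih

include hsub hdis hhalf in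
lemma gen_null : volume (⋂ k : ℕ, ⋃ s ∈ gen F q k, DD s) = 0 := by
  by_contra hne
  set v := volume (⋂ k : ℕ, ⋃ s ∈ gen F q k, DD s) with hv
  have h1 : ∀ k : ℕ, 2 ^ k * v ≤ volume (DD q) := by
    intro k
    refine le_trans ?_ (gen_small q hsub hdis hhalf k)
    have h0 : v ≤ volume (⋃ s ∈ gen F q k, DD s) :=
      measure_mono (iInter_subset (fun k : ℕ => ⋃ s ∈ gen F q k, DD s) k)
    gcongr
  have h2 : Tendsto (fun k : ℕ => (2 : ℝ≥0∞) ^ k * v) atTop (𝓝 ⊤) := by
    have h3 : Tendsto (fun k : ℕ => (2 : ℝ≥0∞) ^ k) atTop (𝓝 ⊤) :=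
      ENNReal.tendsto_pow_atTop_nhds_top_iff.2 (by norm_num)
    have h4 := ENNReal.Tendsto.mul_const (b := v) h3 (Or.inl (by simp))
    rwa [ENNReal.top_mul hne] at h4
  have h5 : (⊤ : ℝ≥0∞) ≤ volume (DD q) := le_of_tendsto' h2 h1
  exact absurd h5 (not_le.2 (fin_DD q))

end

/-- The `k`-th generation of the sparse sum. -/
noncomputable def T (f : ℝ → ℂ) (G : ℕ → Set (ℤ × ℤ)) (x : ℝ) (k : ℕ) : ℝ≥0∞ :=
  ∑' r : G k, (DD r.1).indicator (fun _ => av f r.1) x

lemma av_le_T (f : ℝ → ℂ) (G : ℕ → Set (ℤ × ℤ)) (x : ℝ) (k : ℕ) (r : ℤ × ℤ) (hr : r ∈ G k)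
    (hx : x ∈ DD r) : av f r ≤ T f G x k := by
  have h := ENNReal.le_tsum (f := fun r : G k => (DD r.1).indicator (fun _ => av f r.1) x) ⟨r, hr⟩
  have h2 : (DD r).indicator (fun _ => av f r) x = av f r := indicator_of_mem hx _
  calc av f r = (DD r).indicator (fun _ => av f r) x := h2.symm
    _ ≤ T f G x k := h

theorem main : S_step → S_iter := by
  rintro ⟨C, hC, hst⟩
  refine ⟨C, hC, fun f hf q => ?_⟩
  choose F hsub hdis hhalf hout hin using fun r => hst f hf r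
  refine ⟨gen F q, sparse_gen q hsub hdis hhalf, ?_⟩
  have hA : ∀ᵐ x, x ∉ ⋂ k : ℕ, ⋃ s ∈ gen F q k, DD s := by
    rw [ae_iff]
    simp only [not_not]
    exact gen_null q hsub hdis hhalf
  have hB : ∀ᵐ x, ∀ r : ℤ × ℤ, x ∈ DD r → (∀ s ∈ F r, x ∉ DD s) →
      ‖hilbert (lo f r) x‖ₑ ≤ C * av f r := ae_all_iff.2 hout
  have hD : ∀ᵐ x, ∀ r s : ℤ × ℤ, s ∈ F r → x ∈ DD s →
      ‖hilbert (lo f r) x‖ₑ ≤ ‖hilbert (lo f s) x‖ₑ + C * av f r := by
    rw [ae_all_iff]; intro r
    rw [ae_all_iff]; intro s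
    by_cases hs : s ∈ F r
    · filter_upwards [hin r s hs] with x hx _ using hx
    · exact Eventually.of_forall fun x h => absurd h hs
  filter_upwards [hA, hB, hD] with x hxA hxB hxD hxq
  have key : ∀ k, (x ∈ ⋃ s ∈ gen F q k, DD s) → ∃ r ∈ gen F q k, x ∈ DD r ∧
      ‖hilbert (lo f q) x‖ₑ ≤ ‖hilbert (lo f r) x‖ₑ
        + C * ∑ j ∈ Finset.range k, T f (gen F q) x j := by
    intro k
    induction k with
    | zero =>
      intro _
      exact ⟨q, by simp [gen], hxq, by simp⟩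
    | succ k ih =>
      intro hx
      obtain ⟨r, hr, hxr, hle⟩ := ih (gen_anti q hsub k hx)
      have hx2 := gen_inter q hsub hdis k r hr ⟨hxr, hx⟩
      simp only [mem_iUnion] at hx2
      obtain ⟨s, hs, hxs⟩ := hx2
      refine ⟨s, (mem_gen_succ F q k s).2 ⟨r, hr, hs⟩, hxs, ?_⟩
      calc ‖hilbert (lo f q) x‖ₑ
          ≤ ‖hilbert (lo f r) x‖ₑ + C * ∑ j ∈ Finset.range k, T f (gen F q) x j := hle
        _ ≤ (‖hilbert (lo f s) x‖ₑ + C * av f r)
            + C * ∑ j ∈ Finset.range k, T f (gen F q) x j := by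
              gcongr
              exact hxD r s hs hxs
        _ ≤ (‖hilbert (lo f s) x‖ₑ + C * T f (gen F q) x k)
            + C * ∑ j ∈ Finset.range k, T f (gen F q) x j := by
              gcongr
              exact av_le_T f _ x k r hr hxr
        _ = ‖hilbert (lo f s) x‖ₑ + C * ∑ j ∈ Finset.range (k + 1), T f (gen F q) x j := by
              rw [Finset.sum_range_succ]; ring
  have hex : ∃ k, x ∉ ⋃ s ∈ gen F q k, DD s := by
    simpa only [mem_iInter, not_forall] using hxA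
  classical
  have hk := Nat.find_spec hex
  have hmin : ∀ m < Nat.find hex, x ∈ ⋃ s ∈ gen F q m, DD s := fun m hm => by
    by_contra h
    exact Nat.find_min hex hm h
  rcases hK : Nat.find hex with _ | k
  · rw [hK] at hk
    exact absurd hxq (by simpa [gen] using hk)
  · rw [hK] at hk hmin
    obtain ⟨r, hr, hxr, hle⟩ := key k (hmin k (Nat.lt_succ_self k))
    have hno : ∀ s ∈ F r, x ∉ DD s := by
      intro s hs hxs
      exact hk (mem_biUnion ((mem_gen_succ F q k s).2 ⟨r, hr, hs⟩) hxs)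
    calc ‖hilbert (lo f q) x‖ₑ
        ≤ ‖hilbert (lo f r) x‖ₑ + C * ∑ j ∈ Finset.range k, T f (gen F q) x j := hle
      _ ≤ C * T f (gen F q) x k + C * ∑ j ∈ Finset.range k, T f (gen F q) x j := by
          gcongr
          refine (hxB r hxr hno).trans ?_
          gcongr
          exact av_le_T f _ x k r hr hxr
      _ = C * ∑ j ∈ Finset.range (k + 1), T f (gen F q) x j := by
          rw [Finset.sum_range_succ]; ring
      _ ≤ C * SS f (gen F q) x := by
          gcongr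
          exact ENNReal.sum_le_tsum _

end Pool.Agent.U195.HW.Iter
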